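import Mathlib

namespace Pool.Agent.Results.MP_a6367b_pr.LargeThreshold

open MeasureTheory

/-- Vertices of the infinite `(d+1)`-regular tree `T_d`: words over `Fin (d+1)` without two equal
consecutive letters. -/
def Vert (d : ℕ) : Type := {l : List (Fin (d + 1)) // l.IsChain (· ≠ ·)}

/-- The infinite `(d+1)`-regular tree `T_d`: two words are adjacent iff one of them arises from the
other by adding one letter in front. -/
def tree (d : ℕ) : SimpleGraph (Vert d) where
  Adj u v := ∃ i : Fin (d + 1), u.1 = i :: v.1 ∨ v.1 = i :: u.1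
  symm := ⟨fun _ _ ⟨i, h⟩ => ⟨i, h.symm⟩⟩
  loopless := ⟨fun u ⟨i, h⟩ => by rcases h with h | h <;> simpa using congrArg List.length h⟩

open Classical in
/-- One step of the cyclic cellular automaton with threshold `θ` and `κ` colours on `T_d`. -/
noncomputable def ccaStep {d κ : ℕ} (θ : ℕ) (ξ : Vert d → ZMod κ) : Vert d → ZMod κ := fun v =>
  if θ ≤ {u | (tree d).Adj v u ∧ ξ u = ξ v + 1}.ncard then ξ v + 1 else ξ v

/-- The cyclic cellular automaton started from `ξ`, at time `t`. -/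
noncomputable def cca {d κ : ℕ} (θ : ℕ) (ξ : Vert d → ZMod κ) (t : ℕ) : Vert d → ZMod κ :=
  (ccaStep θ)^[t] ξ

open Classical in
/-- One step of the Greenberg-Hastings model with threshold `θ` and `κ` colours on `T_d`. -/
noncomputable def ghmStep {d κ : ℕ} (θ : ℕ) (γ : Vert d → ZMod κ) : Vert d → ZMod κ := fun v =>
  if γ v ≠ 0 ∨ θ ≤ {u | (tree d).Adj v u ∧ γ u = 1}.ncard then γ v + 1 else 0

/-- The Greenberg-Hastings model started from `γ`, at time `t`. -/
noncomputable def ghm {d κ : ℕ} (θ : ℕ) (γ : Vert d → ZMod κ) (t : ℕ) : Vert d → ZMod κ :=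
  (ghmStep θ)^[t] γ

/-- The uniform product measure on colourings of `T_d`. -/
noncomputable def unif (d κ : ℕ) [NeZero κ] : Measure (Vert d → ZMod κ) :=
  Measure.infinitePi fun _ => (PMF.uniformOfFintype (ZMod κ)).toMeasure

/-! ### The tree -/

/-- The `i`-th neighbour of a word. -/
def nb {d : ℕ} (v : Vert d) (i : Fin (d + 1)) : Vert d :=
  if h : v.1.head? = some i then ⟨v.1.tail, v.2.tail⟩ else
    ⟨i :: v.1, v.2.cons fun y hy hxy => h (by rw [hxy]; exact hy)⟩

lemma adj_iff {d : ℕ} (v u : Vert d) : (tree d).Adj v u ↔ ∃ i, nb v i = u := by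
  constructor
  · rintro ⟨i, h | h⟩
    · refine ⟨i, ?_⟩
      have h1 : v.1.head? = some i := by rw [h]; rfl
      unfold nb
      rw [dif_pos h1]
      apply Subtype.ext
      simp [h]
    · refine ⟨i, ?_⟩
      have h1 : v.1.head? ≠ some i := by
        intro hh
        have h2 := u.2
        rw [h] at h2
        cases hv : v.1 with
        | nil => rw [hv] at hh; simp at hh
        | cons a l =>
          rw [hv] at hh h2
          rw [List.isChain_cons_cons] at h2
          simp at hh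
          exact h2.1 hh.symm
      unfold nb
      rw [dif_neg h1]
      apply Subtype.ext
      simp [h]
  · rintro ⟨i, rfl⟩
    refine ⟨i, ?_⟩
    unfold nb
    split_ifs with h
    · left
      obtain ⟨l, hl⟩ := v
      cases l with
      | nil => simp at h
      | cons a l =>
        simp at h
        subst h
        rfl
    · right
      rfl

lemma nb_injective {d : ℕ} (v : Vert d) : Function.Injective (nb v) := by
  intro i j hij
  unfold nb at hij
  split_ifs at hij with h1 h2 h2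
  · rw [h1] at h2
    exact Option.some.inj h2
  · have := congrArg (fun w : Vert d => w.1.length) hij
    simp at this
  · have := congrArg (fun w : Vert d => w.1.length) hij
    simp at this
    omega
  · have := congrArg (fun w : Vert d => w.1) hij
    simp at this
    exact this

lemma ncard_eq {d : ℕ} (v : Vert d) (p : Vert d → Prop) [DecidablePred fun i => p (nb v i)] :
    {u | (tree d).Adj v u ∧ p u}.ncard = (Finset.univ.filter fun i => p (nb v i)).card := by
  have h : {u | (tree d).Adj v u ∧ p u} =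
      ((Finset.univ.filter fun i => p (nb v i)).map ⟨nb v, nb_injective v⟩ : Finset (Vert d)) := by
    ext u
    simp only [Set.mem_ofPred_eq, adj_iff, Finset.coe_map, Function.Embedding.coeFn_mk,
      Finset.coe_filter, Finset.mem_univ, true_and, Set.mem_image]
    constructor
    · rintro ⟨⟨i, rfl⟩, hp⟩
      exact ⟨i, hp, rfl⟩
    · rintro ⟨i, hp, rfl⟩
      exact ⟨⟨i, rfl⟩, hp⟩
  rw [h, Set.ncard_coe_finset, Finset.card_map]

instance (d : ℕ) : Countable (Vert d) := Subtype.countable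

/-! ### Automorphisms -/

/-- A bijection of the words commuting with all `nb · i`. -/
def IsAut {d : ℕ} (φ : Vert d ≃ Vert d) : Prop := ∀ v i, φ (nb v i) = nb (φ v) i

/-- The root: the empty word. -/
def root (d : ℕ) : Vert d := ⟨[], .nil⟩

lemma nb_nb {d : ℕ} (v : Vert d) (i : Fin (d + 1)) : nb (nb v i) i = v := by
  obtain ⟨l, hl⟩ := v
  cases l with
  | nil => simp [nb]
  | cons a l =>
    by_cases h : a = i
    · subst h
      have h1 : nb (⟨a :: l, hl⟩ : Vert d) a = ⟨l, hl.tail⟩ := by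
        unfold nb
        rw [dif_pos (by simp)]
        rfl
      rw [h1]
      have h2 : l.head? ≠ some a := by
        intro hh
        cases l with
        | nil => simp at hh
        | cons b l =>
          rw [List.isChain_cons_cons] at hl
          simp at hh
          exact hl.1 hh.symm
      unfold nb
      rw [dif_neg h2]
    · have h1 : (a :: l).head? ≠ some i := by simpa using h
      unfold nb
      rw [dif_neg h1]
      simp

/-- Append the word `v` to the word `w` (with cancellations). -/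
def act {d : ℕ} (w v : Vert d) : Vert d := v.1.foldr (fun a u => nb u a) w

lemma act_root {d : ℕ} (w : Vert d) : act w (root d) = w := rfl

lemma act_nb {d : ℕ} (w v : Vert d) (i : Fin (d + 1)) : act w (nb v i) = nb (act w v) i := by
  obtain ⟨l, hl⟩ := v
  cases l with
  | nil => rfl
  | cons a l =>
    by_cases h : a = i
    · subst h
      have h1 : nb (⟨a :: l, hl⟩ : Vert d) a = ⟨l, hl.tail⟩ := by
        unfold nb
        rw [dif_pos (by simp)]
        rfl
      rw [h1]
      have h2 : act w (⟨a :: l, hl⟩ : Vert d) = nb (act w ⟨l, hl.tail⟩) a := rfl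
      rw [h2, nb_nb]
    · have h1 : (a :: l).head? ≠ some i := by simpa using h
      have h2 : nb (⟨a :: l, hl⟩ : Vert d) i = ⟨i :: a :: l, hl.cons fun y hy hxy =>
          h1 (by rw [hxy]; exact hy)⟩ := by
        unfold nb
        rw [dif_neg h1]
      rw [h2]
      rfl

lemma cons_eq_nb {d : ℕ} (a : Fin (d + 1)) (l : List (Fin (d + 1)))
    (hl : (a :: l).IsChain (· ≠ ·)) : (⟨a :: l, hl⟩ : Vert d) = nb ⟨l, hl.tail⟩ a := by
  have h2 : l.head? ≠ some a := by
    intro hh
    cases l with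
    | nil => simp at hh
    | cons b l =>
      rw [List.isChain_cons_cons] at hl
      simp at hh
      exact hl.1 hh.symm
  unfold nb
  rw [dif_neg h2]

lemma eq_id_of_equivariant {d : ℕ} (f : Vert d → Vert d) (h0 : f (root d) = root d)
    (hf : ∀ v i, f (nb v i) = nb (f v) i) (v : Vert d) : f v = v := by
  obtain ⟨l, hl⟩ := v
  induction l with
  | nil => exact h0
  | cons a l ih => rw [cons_eq_nb, hf, ih]

/-- The involution which swaps the root and its `i`-th neighbour. -/
def swap {d : ℕ} (i : Fin (d + 1)) : Vert d ≃ Vert d :=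
  Function.Involutive.toPerm (act (nb (root d) i)) (by
    intro v
    have := eq_id_of_equivariant (fun v => act (nb (root d) i) (act (nb (root d) i) v))
      (by simp only [act_root, act_nb, nb_nb]) (by intro v j; simp only [act_nb]) v
    exact this)

lemma swap_aut {d : ℕ} (i : Fin (d + 1)) : IsAut (swap (d := d) i) := fun v j =>
  act_nb (nb (root d) i) v j

lemma swap_root {d : ℕ} (i : Fin (d + 1)) : swap i (root d) = nb (root d) i := rfl

lemma swap_nb_root {d : ℕ} (i : Fin (d + 1)) : swap i (nb (root d) i) = root d := by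
  rw [swap_aut i, swap_root, nb_nb]

lemma exists_aut {d : ℕ} (v : Vert d) : ∃ φ : Vert d ≃ Vert d, IsAut φ ∧ φ (root d) = v := by
  obtain ⟨l, hl⟩ := v
  induction l with
  | nil => exact ⟨Equiv.refl _, fun _ _ => rfl, rfl⟩
  | cons a l ih =>
    obtain ⟨φ, h1, h2⟩ := ih hl.tail
    refine ⟨(swap a).trans φ, fun v i => ?_, ?_⟩
    · rw [Equiv.trans_apply, Equiv.trans_apply, swap_aut, h1]
    · rw [Equiv.trans_apply, swap_root, h1, h2, cons_eq_nb]

lemma ncard_aut {d : ℕ} (φ : Vert d ≃ Vert d) (hφ : IsAut φ) (v : Vert d) (p : Vert d → Prop) :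
    {u | (tree d).Adj v u ∧ p (φ u)}.ncard = {u | (tree d).Adj (φ v) u ∧ p u}.ncard := by
  classical
  rw [ncard_eq v fun u => p (φ u), ncard_eq (φ v) p]
  congr 1
  ext i
  simp only [Finset.mem_filter, Finset.mem_univ, true_and]
  rw [hφ v i]

variable {d κ : ℕ}

lemma ccaStep_comp (θ : ℕ) (φ : Vert d ≃ Vert d) (hφ : IsAut φ) (ξ : Vert d → ZMod κ) :
    ccaStep θ (ξ ∘ φ) = ccaStep θ ξ ∘ φ := by
  ext v
  unfold ccaStep
  have h : {u | (tree d).Adj v u ∧ ξ (φ u) = ξ (φ v) + 1}.ncard =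
      {u | (tree d).Adj (φ v) u ∧ ξ u = ξ (φ v) + 1}.ncard :=
    ncard_aut φ hφ v (fun u => ξ u = ξ (φ v) + 1)
  simp only [Function.comp_apply]
  rw [h]

lemma cca_comp (θ : ℕ) (φ : Vert d ≃ Vert d) (hφ : IsAut φ) (ξ : Vert d → ZMod κ) (t : ℕ) :
    cca θ (ξ ∘ φ) t = cca θ ξ t ∘ φ := by
  induction t with
  | zero => rfl
  | succ t ih =>
    unfold cca at ih ⊢
    rw [Function.iterate_succ_apply', Function.iterate_succ_apply', ih, ccaStep_comp θ φ hφ]

lemma ghmStep_comp (θ : ℕ) (φ : Vert d ≃ Vert d) (hφ : IsAut φ) (γ : Vert d → ZMod κ) :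
    ghmStep θ (γ ∘ φ) = ghmStep θ γ ∘ φ := by
  ext v
  unfold ghmStep
  have h : {u | (tree d).Adj v u ∧ γ (φ u) = 1}.ncard =
      {u | (tree d).Adj (φ v) u ∧ γ u = 1}.ncard :=
    ncard_aut φ hφ v (fun u => γ u = 1)
  simp only [Function.comp_apply]
  rw [h]

lemma ghm_comp (θ : ℕ) (φ : Vert d ≃ Vert d) (hφ : IsAut φ) (γ : Vert d → ZMod κ) (t : ℕ) :
    ghm θ (γ ∘ φ) t = ghm θ γ t ∘ φ := by
  induction t with
  | zero => rfl
  | succ t ih =>
    unfold ghm at ih ⊢
    rw [Function.iterate_succ_apply', Function.iterate_succ_apply', ih, ghmStep_comp θ φ hφ]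

lemma map_unif [NeZero κ] (φ : Vert d ≃ Vert d) :
    (unif d κ).map (fun ξ => ξ ∘ φ) = unif d κ := by
  have h := Measure.infinitePi_map_piCongrLeft
    (μ := fun _ : Vert d => (PMF.uniformOfFintype (ZMod κ)).toMeasure) φ.symm
  unfold unif
  convert h using 2
  ext ξ v
  rw [MeasurableEquiv.coe_piCongrLeft]
  have := Equiv.piCongrLeft_apply_apply (fun _ : Vert d => ZMod κ) φ.symm ξ (φ v)
  simpa using this.symm

/-! ### Measurability -/

lemma ccaStep_eq (θ : ℕ) (ξ : Vert d → ZMod κ) (v : Vert d) :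
    ccaStep θ ξ v = if θ ≤ (Finset.univ.filter fun i => ξ (nb v i) = ξ v + 1).card then ξ v + 1
      else ξ v := by
  unfold ccaStep
  rw [ncard_eq v fun u => ξ u = ξ v + 1]

lemma ghmStep_eq (θ : ℕ) (γ : Vert d → ZMod κ) (v : Vert d) :
    ghmStep θ γ v = if γ v ≠ 0 ∨ θ ≤ (Finset.univ.filter fun i => γ (nb v i) = 1).card
      then γ v + 1 else 0 := by
  unfold ghmStep
  rw [ncard_eq v fun u => γ u = 1]

lemma measurable_of_local [NeZero κ] (g : ZMod κ → (Fin (d + 1) → ZMod κ) → ZMod κ) (v : Vert d) :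
    Measurable fun ξ : Vert d → ZMod κ => g (ξ v) (fun i => ξ (nb v i)) := by
  have h1 : Measurable (fun p : ZMod κ × (Fin (d + 1) → ZMod κ) => g p.1 p.2) :=
    measurable_of_countable _
  have h2 : Measurable fun ξ : Vert d → ZMod κ => (ξ v, fun i => ξ (nb v i)) := by
    fun_prop
  exact h1.comp h2

lemma measurable_ccaStep [NeZero κ] (θ : ℕ) :
    Measurable (ccaStep θ : (Vert d → ZMod κ) → Vert d → ZMod κ) := by
  rw [measurable_pi_iff]
  intro v
  have h := measurable_of_local (d := d) (κ := κ) (fun a b =>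
    if θ ≤ (Finset.univ.filter fun i => b i = a + 1).card then a + 1 else a) v
  convert h using 2 with ξ
  rw [ccaStep_eq]

lemma measurable_ghmStep [NeZero κ] (θ : ℕ) :
    Measurable (ghmStep θ : (Vert d → ZMod κ) → Vert d → ZMod κ) := by
  rw [measurable_pi_iff]
  intro v
  have h := measurable_of_local (d := d) (κ := κ) (fun a b =>
    if a ≠ 0 ∨ θ ≤ (Finset.univ.filter fun i => b i = 1).card then a + 1 else 0) v
  convert h using 2 with ξ
  rw [ghmStep_eq]

lemma measurable_cca [NeZero κ] (θ t : ℕ) (v : Vert d) :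
    Measurable fun ξ : Vert d → ZMod κ => cca θ ξ t v := by
  have h : Measurable fun ξ : Vert d → ZMod κ => cca θ ξ t := by
    induction t with
    | zero => exact measurable_id
    | succ t ih =>
      have : (fun ξ : Vert d → ZMod κ => cca θ ξ (t + 1)) = ccaStep θ ∘ fun ξ => cca θ ξ t := by
        ext ξ v
        unfold cca
        rw [Function.iterate_succ_apply']
        rfl
      rw [this]
      exact (measurable_ccaStep θ).comp ih
  exact (measurable_pi_apply v).comp h

lemma measurable_ghm [NeZero κ] (θ t : ℕ) (v : Vert d) :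
    Measurable fun ξ : Vert d → ZMod κ => ghm θ ξ t v := by
  have h : Measurable fun ξ : Vert d → ZMod κ => ghm θ ξ t := by
    induction t with
    | zero => exact measurable_id
    | succ t ih =>
      have : (fun ξ : Vert d → ZMod κ => ghm θ ξ (t + 1)) = ghmStep θ ∘ fun ξ => ghm θ ξ t := by
        ext ξ v
        unfold ghm
        rw [Function.iterate_succ_apply']
        rfl
      rw [this]
      exact (measurable_ghmStep θ).comp ih
  exact (measurable_pi_apply v).comp h

lemma lintegral_comp [NeZero κ] (φ : Vert d ≃ Vert d) (f : (Vert d → ZMod κ) → ENNReal)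
    (hf : Measurable f) : ∫⁻ ξ, f (ξ ∘ φ) ∂(unif d κ) = ∫⁻ ξ, f ξ ∂(unif d κ) := by
  conv_rhs => rw [← map_unif φ]
  rw [lintegral_map hf]
  exact measurable_pi_iff.mpr fun v => measurable_pi_apply _

instance [NeZero κ] : IsProbabilityMeasure (unif d κ) := by
  unfold unif
  infer_instance

/-! ### Counting moves of the cyclic cellular automaton -/

lemma cca_succ (θ : ℕ) (ξ : Vert d → ZMod κ) (t : ℕ) :
    cca θ ξ (t + 1) = ccaStep θ (cca θ ξ t) := by
  unfold cca
  rw [Function.iterate_succ_apply']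

lemma cca_move (θ : ℕ) (ξ : Vert d → ZMod κ) (t : ℕ) (v : Vert d)
    (h : cca θ ξ (t + 1) v ≠ cca θ ξ t v) :
    cca θ ξ (t + 1) v = cca θ ξ t v + 1 ∧
      θ ≤ (Finset.univ.filter fun i => cca θ ξ t (nb v i) = cca θ ξ t v + 1).card := by
  rw [cca_succ, ccaStep_eq] at h ⊢
  split_ifs at h ⊢ with h1
  · exact ⟨rfl, h1⟩
  · exact absurd rfl h

/-- The number of moves of `v` before time `T`. -/
noncomputable def hC (θ T : ℕ) (ξ : Vert d → ZMod κ) (v : Vert d) : ℕ :=
  ∑ t ∈ Finset.range T, if cca θ ξ (t + 1) v ≠ cca θ ξ t v then 1 else 0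

/-- The number of moves of `v` before time `T` supported by `w`. -/
noncomputable def sC (θ T : ℕ) (ξ : Vert d → ZMod κ) (v w : Vert d) : ℕ :=
  ∑ t ∈ Finset.range T,
    if cca θ ξ (t + 1) v ≠ cca θ ξ t v ∧ cca θ ξ t w = cca θ ξ t v + 1 then 1 else 0

lemma mul_hC_le (θ T : ℕ) (ξ : Vert d → ZMod κ) (v : Vert d) :
    θ * hC θ T ξ v ≤ ∑ i, sC θ T ξ v (nb v i) := by
  unfold hC sC
  rw [Finset.sum_comm, Finset.mul_sum]
  refine Finset.sum_le_sum fun t _ => ?_
  split_ifs with h
  · have := (cca_move θ ξ t v h).2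
    simp only [h, not_false_eq_true, true_and, ne_eq, mul_one]
    rw [Finset.sum_boole]
    simpa using this
  · simp

lemma step_pair (κ : ℕ) (hκ : 3 ≤ κ) (a b a' b' : ZMod κ) (ha : a' ≠ a → a' = a + 1)
    (hb : b' ≠ b → b' = b + 1) :
    2 * ((if a' ≠ a ∧ b = a + 1 then 1 else 0) + (if b' ≠ b ∧ a = b + 1 then 1 else 0)) +
      (if a = b then 1 else 0) ≤
      (if a' ≠ a then 1 else 0) + (if b' ≠ b then 1 else 0) + (if a' = b' then 1 else 0) := by
  have h1 : (1 : ZMod κ) ≠ 0 := by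
    intro h
    have := (ZMod.natCast_eq_zero_iff 1 κ).mp (by exact_mod_cast h)
    have := Nat.le_of_dvd one_pos this
    omega
  have h2 : (2 : ZMod κ) ≠ 0 := by
    intro h
    have := (ZMod.natCast_eq_zero_iff 2 κ).mp (by exact_mod_cast h)
    have := Nat.le_of_dvd two_pos this
    omega
  have h9 : ∀ x : ZMod κ, x + 1 ≠ x := fun x h => h1 (by simpa using h)
  have h8 : ¬ (b = a + 1 ∧ a = b + 1) := by
    rintro ⟨h9, h10⟩
    apply h2
    have : a = a + 1 + 1 := by rw [← h9]; exact h10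
    have h11 : a + 2 = a + 0 := by
      rw [add_zero, ← one_add_one_eq_two, ← add_assoc]; exact this.symm
    exact add_left_cancel h11
  by_cases h3 : a' = a
  · subst h3
    by_cases h4 : b' = b
    · subst h4
      simp
    · have h6 := hb h4
      subst h6
      by_cases h5 : a' = b + 1
      · have h7 : a' ≠ b := by rw [h5]; exact h9 b
        simp [h5, h9]
      · simp only [h5, and_false, if_false, ne_eq, not_true_eq_false, false_and, h4,
          not_false_eq_true, if_true]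
        split_ifs <;> omega
  · have h6 := ha h3
    subst h6
    by_cases h4 : b' = b
    · subst h4
      by_cases h5 : b' = a + 1
      · simp [h5, h9, h1]
      · have h7 : ¬ a + 1 = b' := fun h => h5 h.symm
        simp only [h5, h7, and_false, if_false, ne_eq, not_true_eq_false, false_and, h3,
          not_false_eq_true, if_true]
        split_ifs <;> omega
    · have h7 := hb h4
      subst h7
      simp only [h3, h4, ne_eq, not_false_eq_true, true_and, if_true, add_left_inj]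
      by_cases h5 : b = a + 1
      · have h6 : ¬ a = b + 1 := fun h => h8 ⟨h5, h⟩
        simp only [h5] at h6 ⊢
        simp only [h6, if_true, if_false]
        omega
      · simp only [h5, if_false]
        split_ifs <;> omega

lemma pair_le (hκ : 3 ≤ κ) (θ T : ℕ) (ξ : Vert d → ZMod κ) (v w : Vert d) :
    2 * (sC θ T ξ v w + sC θ T ξ w v) + (if ξ v = ξ w then 1 else 0) ≤
      hC θ T ξ v + hC θ T ξ w + (if cca θ ξ T v = cca θ ξ T w then 1 else 0) := by
  induction T with
  | zero =>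
    simp only [sC, hC, Finset.range_zero, Finset.sum_empty, mul_zero, zero_add, add_zero]
    exact le_rfl
  | succ T ih =>
    have h := step_pair κ hκ (cca θ ξ T v) (cca θ ξ T w) (cca θ ξ (T + 1) v) (cca θ ξ (T + 1) w)
      (fun h => (cca_move θ ξ T v h).1) (fun h => (cca_move θ ξ T w h).1)
    unfold sC hC at ih ⊢
    simp only [Finset.sum_range_succ]
    omega

lemma measurableSet_move [NeZero κ] (θ t : ℕ) (v : Vert d) :
    MeasurableSet {ξ : Vert d → ZMod κ | cca θ ξ (t + 1) v ≠ cca θ ξ t v} :=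
  (measurableSet_eq_fun (measurable_cca θ (t + 1) v) (measurable_cca θ t v)).compl

lemma measurable_hC [NeZero κ] (θ T : ℕ) (v : Vert d) :
    Measurable fun ξ : Vert d → ZMod κ => ((hC θ T ξ v : ℕ) : ENNReal) := by
  unfold hC
  push_cast
  refine Finset.measurable_sum _ fun t _ => ?_
  refine Measurable.ite (measurableSet_move θ t v) ?_ ?_ <;> fun_prop

lemma measurable_sC [NeZero κ] (θ T : ℕ) (v w : Vert d) :
    Measurable fun ξ : Vert d → ZMod κ => ((sC θ T ξ v w : ℕ) : ENNReal) := by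
  unfold sC
  push_cast
  refine Finset.measurable_sum _ fun t _ => ?_
  refine Measurable.ite ((measurableSet_move θ t v).inter
    (measurableSet_eq_fun (measurable_cca θ t w) ?_)) ?_ ?_
  · have h : Measurable fun a : ZMod κ => a + 1 := measurable_of_countable _
    exact h.comp (measurable_cca θ t v)
  · fun_prop
  · fun_prop

lemma hC_comp (θ T : ℕ) (φ : Vert d ≃ Vert d) (hφ : IsAut φ) (ξ : Vert d → ZMod κ)
    (v : Vert d) : hC θ T (ξ ∘ φ) v = hC θ T ξ (φ v) := by
  unfold hC
  simp only [cca_comp θ φ hφ, Function.comp_apply]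

lemma sC_comp (θ T : ℕ) (φ : Vert d ≃ Vert d) (hφ : IsAut φ) (ξ : Vert d → ZMod κ)
    (v w : Vert d) : sC θ T (ξ ∘ φ) v w = sC θ T ξ (φ v) (φ w) := by
  unfold sC
  simp only [cca_comp θ φ hφ, Function.comp_apply]

lemma lintegral_hC [NeZero κ] (θ T : ℕ) (v : Vert d) :
    ∫⁻ ξ : Vert d → ZMod κ, ((hC θ T ξ v : ℕ) : ENNReal) ∂(unif d κ) =
      ∫⁻ ξ : Vert d → ZMod κ, ((hC θ T ξ (root d) : ℕ) : ENNReal) ∂(unif d κ) := by
  obtain ⟨φ, h1, h2⟩ := exists_aut v
  rw [← lintegral_comp φ _ (measurable_hC θ T (root d))]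
  simp only [hC_comp θ T φ h1, h2]

lemma lintegral_sC [NeZero κ] (θ T : ℕ) (i : Fin (d + 1)) :
    ∫⁻ ξ : Vert d → ZMod κ, ((sC θ T ξ (nb (root d) i) (root d) : ℕ) : ENNReal) ∂(unif d κ) =
      ∫⁻ ξ : Vert d → ZMod κ, ((sC θ T ξ (root d) (nb (root d) i) : ℕ) : ENNReal)
        ∂(unif d κ) := by
  rw [← lintegral_comp (swap i) _ (measurable_sC θ T (nb (root d) i) (root d))]
  simp only [sC_comp θ T (swap i) (swap_aut i), swap_root, swap_nb_root]

lemma uniform_singleton [NeZero κ] (c : ZMod κ) :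
    (PMF.uniformOfFintype (ZMod κ)).toMeasure {c} = (κ : ENNReal)⁻¹ := by
  rw [PMF.toMeasure_apply_singleton _ _ (measurableSet_singleton c),
    PMF.uniformOfFintype_apply, ZMod.card]

lemma unif_coord [NeZero κ] (v : Vert d) (c : ZMod κ) :
    unif d κ {ξ | ξ v = c} = (κ : ENNReal)⁻¹ := by
  have h := Measure.infinitePi_pi (fun _ : Vert d => (PMF.uniformOfFintype (ZMod κ)).toMeasure)
    (s := {v}) (t := fun _ => {c}) (fun _ _ => measurableSet_singleton c)
  rw [Finset.prod_singleton, uniform_singleton] at h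
  rw [← h]
  unfold unif
  congr 1
  ext ξ
  simp

lemma unif_pair [NeZero κ] (v w : Vert d) (hvw : v ≠ w) :
    unif d κ {ξ | ξ v = ξ w} = (κ : ENNReal)⁻¹ := by
  classical
  have h1 : {ξ : Vert d → ZMod κ | ξ v = ξ w} = ⋃ c : ZMod κ, {ξ | ξ v = c ∧ ξ w = c} := by
    ext ξ
    simp only [Set.mem_ofPred_eq, Set.mem_iUnion]
    exact ⟨fun h => ⟨ξ v, rfl, h.symm⟩, fun ⟨c, h1, h2⟩ => h1.trans h2.symm⟩
  have h2 : ∀ c : ZMod κ, unif d κ {ξ | ξ v = c ∧ ξ w = c} = (κ : ENNReal)⁻¹ * (κ : ENNReal)⁻¹ := by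
    intro c
    have h := Measure.infinitePi_pi (fun _ : Vert d => (PMF.uniformOfFintype (ZMod κ)).toMeasure)
      (s := {v, w}) (t := fun _ => {c}) (fun _ _ => measurableSet_singleton c)
    rw [Finset.prod_pair hvw, uniform_singleton] at h
    rw [← h]
    unfold unif
    congr 1
    ext ξ
    simp
  rw [h1, measure_iUnion]
  · simp only [h2]
    rw [tsum_fintype, Finset.sum_const, Finset.card_univ, ZMod.card, nsmul_eq_mul, ← mul_assoc,
      ENNReal.mul_inv_cancel, one_mul]
    · exact_mod_cast (NeZero.ne κ)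
    · exact ENNReal.natCast_ne_top κ
  · intro a b hab
    rw [Function.onFun, Set.disjoint_left]
    rintro ξ ⟨h3, _⟩ ⟨h4, _⟩
    exact hab (h3.symm.trans h4)
  · intro c
    exact (measurableSet_eq_fun (measurable_pi_apply v) measurable_const).inter
      (measurableSet_eq_fun (measurable_pi_apply w) measurable_const)

lemma root_ne_nb (i : Fin (d + 1)) : root d ≠ nb (root d) i := by
  intro h
  have := congrArg (fun w : Vert d => w.1.length) h
  simp [root, nb] at this

/-- The expected number of moves before time `T`. -/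
lemma expected_cca [NeZero κ] (hκ : 3 ≤ κ) (θ : ℕ) (hθ : d + 1 < 2 * θ) (T : ℕ) (v : Vert d) :
    ∫⁻ ξ : Vert d → ZMod κ, ((hC θ T ξ v : ℕ) : ENNReal) ∂(unif d κ) ≤
      ENNReal.ofReal ((d + 1) * (κ - 1) / (2 * κ * (2 * θ - d - 1))) := by
  rw [lintegral_hC]
  set E := ∫⁻ ξ : Vert d → ZMod κ, ((hC θ T ξ (root d) : ℕ) : ENNReal) ∂(unif d κ) with hE
  have hfin : E ≤ T := by
    calc E ≤ ∫⁻ ξ : Vert d → ZMod κ, (T : ENNReal) ∂(unif d κ) := by
          refine lintegral_mono fun ξ => ?_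
          unfold hC
          rw [Nat.cast_le]
          calc _ ≤ ∑ t ∈ Finset.range T, 1 := Finset.sum_le_sum fun t _ => by split_ifs <;> simp
            _ = T := by simp
      _ = T := by simp
  have hne : E ≠ ⊤ := ne_top_of_le_ne_top (ENNReal.natCast_ne_top T) hfin
  have h1 : (θ : ENNReal) * E ≤ ∑ i : Fin (d + 1),
      ∫⁻ ξ : Vert d → ZMod κ, ((sC θ T ξ (root d) (nb (root d) i) : ℕ) : ENNReal) ∂(unif d κ) := by
    rw [← lintegral_finsetSum _ fun i _ => measurable_sC θ T _ _, hE,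
      ← lintegral_const_mul _ (measurable_hC θ T _)]
    refine lintegral_mono fun ξ => ?_
    have := mul_hC_le θ T ξ (root d)
    rw [← Nat.cast_mul, ← Nat.cast_sum]
    exact Nat.cast_le.mpr this
  have h2 : ∀ i : Fin (d + 1),
      4 * (∫⁻ ξ : Vert d → ZMod κ, ((sC θ T ξ (root d) (nb (root d) i) : ℕ) : ENNReal)
        ∂(unif d κ)) + (κ : ENNReal)⁻¹ ≤ 2 * E + 1 := by
    intro i
    have h3 : ∫⁻ ξ : Vert d → ZMod κ, (2 * (((sC θ T ξ (root d) (nb (root d) i) : ℕ) : ENNReal) +
        ((sC θ T ξ (nb (root d) i) (root d) : ℕ) : ENNReal)) +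
        Set.indicator {ξ | ξ (root d) = ξ (nb (root d) i)} 1 ξ) ∂(unif d κ) ≤
        ∫⁻ ξ : Vert d → ZMod κ, (((hC θ T ξ (root d) : ℕ) : ENNReal) +
          ((hC θ T ξ (nb (root d) i) : ℕ) : ENNReal) + 1) ∂(unif d κ) := by
      refine lintegral_mono fun ξ => ?_
      have h4 := pair_le hκ θ T ξ (root d) (nb (root d) i)
      have h5 : 2 * (sC θ T ξ (root d) (nb (root d) i) + sC θ T ξ (nb (root d) i) (root d)) +
          (if ξ (root d) = ξ (nb (root d) i) then 1 else 0) ≤
          hC θ T ξ (root d) + hC θ T ξ (nb (root d) i) + 1 := by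
        refine h4.trans ?_
        split_ifs <;> omega
      simp only [Set.indicator_apply, Set.mem_ofPred_eq, Pi.one_apply]
      exact_mod_cast h5
    rw [lintegral_add_right, lintegral_const_mul, lintegral_add_left (measurable_sC θ T _ _),
      lintegral_sC, lintegral_add_right _ measurable_const,
      lintegral_add_left (measurable_hC θ T _), lintegral_hC θ T (nb (root d) i), ← hE,
      lintegral_indicator_one, unif_pair _ _ (root_ne_nb i)] at h3
    · simp only [lintegral_const, measure_univ, mul_one] at h3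
      calc _ = _ := ?_
        _ ≤ _ := h3
        _ = _ := by ring
      ring
    · exact measurableSet_eq_fun (measurable_pi_apply _) (measurable_pi_apply _)
    · exact (measurable_sC θ T _ _).add (measurable_sC θ T _ _)
    · exact measurable_one.indicator
        (measurableSet_eq_fun (measurable_pi_apply _) (measurable_pi_apply _))
  have h3 : 4 * θ * E + (d + 1) * (κ : ENNReal)⁻¹ ≤ (d + 1) * (2 * E + 1) := by
    calc 4 * θ * E + (d + 1) * (κ : ENNReal)⁻¹ = 4 * (θ * E) + (d + 1) * (κ : ENNReal)⁻¹ := by ring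
      _ ≤ 4 * (∑ i : Fin (d + 1), ∫⁻ ξ : Vert d → ZMod κ,
          ((sC θ T ξ (root d) (nb (root d) i) : ℕ) : ENNReal) ∂(unif d κ)) +
          (d + 1) * (κ : ENNReal)⁻¹ := by gcongr
      _ = ∑ i : Fin (d + 1), (4 * (∫⁻ ξ : Vert d → ZMod κ,
          ((sC θ T ξ (root d) (nb (root d) i) : ℕ) : ENNReal) ∂(unif d κ)) +
          (κ : ENNReal)⁻¹) := by
          rw [Finset.sum_add_distrib, Finset.mul_sum]
          simp
      _ ≤ ∑ i : Fin (d + 1), (2 * E + 1) := Finset.sum_le_sum fun i _ => h2 i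
      _ = (d + 1) * (2 * E + 1) := by
          rw [Finset.sum_const, Finset.card_univ, Fintype.card_fin, nsmul_eq_mul]
          push_cast
          ring
  have hκ0 : (κ : ℝ) ≠ 0 := by
    have : (3 : ℝ) ≤ κ := by exact_mod_cast hκ
    positivity
  have h4 : 4 * θ * E.toReal + (d + 1) * (κ : ℝ)⁻¹ ≤ (d + 1) * (2 * E.toReal + 1) := by
    have h5 := ENNReal.toReal_mono (by finiteness) h3
    rw [ENNReal.toReal_add (by finiteness) (by
      have : (κ : ENNReal) ≠ 0 := by exact_mod_cast (NeZero.ne κ)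
      finiteness)] at h5
    simp only [ENNReal.toReal_mul, ENNReal.toReal_inv, ENNReal.toReal_natCast] at h5
    rw [ENNReal.toReal_add (by finiteness) (by finiteness),
      ENNReal.toReal_add (by finiteness) (by finiteness)] at h5
    simpa using h5
  rw [← ENNReal.ofReal_toReal hne]
  apply ENNReal.ofReal_le_ofReal
  have h5 : (0 : ℝ) < 2 * θ - d - 1 := by
    have : ((d + 1 : ℕ) : ℝ) < ((2 * θ : ℕ) : ℝ) := by exact_mod_cast hθ
    push_cast at this
    linarith
  have h6 : (0 : ℝ) < κ := by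
    have : (3 : ℝ) ≤ κ := by exact_mod_cast hκ
    linarith
  rw [le_div_iff₀ (by positivity)]
  have h7 : (κ : ℝ) * (κ : ℝ)⁻¹ = 1 := mul_inv_cancel₀ hκ0
  nlinarith [mul_le_mul_of_nonneg_left h4 h6.le, h7]

/-! ### Counting excitations of the Greenberg-Hastings model -/

lemma ghm_succ (θ : ℕ) (ξ : Vert d → ZMod κ) (t : ℕ) :
    ghm θ ξ (t + 1) = ghmStep θ (ghm θ ξ t) := by
  unfold ghm
  rw [Function.iterate_succ_apply']

lemma one_ne (hκ : 3 ≤ κ) : (1 : ZMod κ) ≠ 0 := by
  intro h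
  have := (ZMod.natCast_eq_zero_iff 1 κ).mp (by exact_mod_cast h)
  have := Nat.le_of_dvd one_pos this
  omega

lemma two_ne (hκ : 3 ≤ κ) : (2 : ZMod κ) ≠ 0 := by
  intro h
  have := (ZMod.natCast_eq_zero_iff 2 κ).mp (by exact_mod_cast h)
  have := Nat.le_of_dvd two_pos this
  omega

lemma ghm_zero_or (θ : ℕ) (ξ : Vert d → ZMod κ) (t : ℕ) (v : Vert d) (h : ghm θ ξ t v = 0) :
    ghm θ ξ (t + 1) v = 0 ∨ ghm θ ξ (t + 1) v = 1 := by
  rw [ghm_succ, ghmStep_eq]
  split_ifs
  · right
    rw [h, zero_add]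
  · left
    rfl

lemma ghm_of_ne (θ : ℕ) (ξ : Vert d → ZMod κ) (t : ℕ) (v : Vert d) (h : ghm θ ξ t v ≠ 0) :
    ghm θ ξ (t + 1) v = ghm θ ξ t v + 1 := by
  rw [ghm_succ, ghmStep_eq, if_pos (Or.inl h)]

lemma ghm_exc (hκ : 3 ≤ κ) (θ : ℕ) (ξ : Vert d → ZMod κ) (t : ℕ) (v : Vert d)
    (h : ghm θ ξ (t + 1) v = 1) :
    ghm θ ξ t v = 0 ∧ θ ≤ (Finset.univ.filter fun i => ghm θ ξ t (nb v i) = 1).card := by
  have h0 : ghm θ ξ t v = 0 := by
    by_contra h1
    rw [ghm_of_ne θ ξ t v h1] at h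
    exact h1 (by simpa using h)
  refine ⟨h0, ?_⟩
  rw [ghm_succ, ghmStep_eq] at h
  split_ifs at h with h1
  · rcases h1 with h1 | h1
    · exact absurd h0 h1
    · exact h1
  · exact absurd h.symm (one_ne hκ)

/-- The number of excitations of `v` up to time `T`. -/
noncomputable def hG (θ T : ℕ) (ξ : Vert d → ZMod κ) (v : Vert d) : ℕ :=
  ∑ t ∈ Finset.range T, if ghm θ ξ (t + 1) v = 1 then 1 else 0

/-- The number of excitations of `v` up to time `T` supported by `w`. -/
noncomputable def sG (θ T : ℕ) (ξ : Vert d → ZMod κ) (v w : Vert d) : ℕ :=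
  ∑ t ∈ Finset.range T, if ghm θ ξ (t + 1) v = 1 ∧ ghm θ ξ t w = 1 then 1 else 0

lemma mul_hG_le (hκ : 3 ≤ κ) (θ T : ℕ) (ξ : Vert d → ZMod κ) (v : Vert d) :
    θ * hG θ T ξ v ≤ ∑ i, sG θ T ξ v (nb v i) := by
  unfold hG sG
  rw [Finset.sum_comm, Finset.mul_sum]
  refine Finset.sum_le_sum fun t _ => ?_
  split_ifs with h
  · have := (ghm_exc hκ θ ξ t v h).2
    simp only [h, true_and, mul_one]
    rw [Finset.sum_boole]
    simpa using this
  · simp

lemma pair_le_ghm (hκ : 3 ≤ κ) (θ T : ℕ) (ξ : Vert d → ZMod κ) (v w : Vert d) :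
    sG θ (T + 1) ξ v w + sG θ T ξ w v ≤ hG θ T ξ w + (if ξ w = 1 then 1 else 0) := by
  induction T with
  | zero =>
    simp only [sG, hG, Finset.range_zero, Finset.sum_empty, zero_add, add_zero, Finset.range_one,
      Finset.sum_singleton]
    have h0 : ghm θ ξ 0 w = ξ w := rfl
    rw [h0]
    split_ifs <;> first | omega | (exfalso; tauto)
  | succ T ih =>
    have h : (if ghm θ ξ (T + 1 + 1) v = 1 ∧ ghm θ ξ (T + 1) w = 1 then 1 else 0) +
        (if ghm θ ξ (T + 1) w = 1 ∧ ghm θ ξ T v = 1 then 1 else 0) ≤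
        (if ghm θ ξ (T + 1) w = 1 then 1 else 0) := by
      by_cases hw : ghm θ ξ (T + 1) w = 1
      · by_cases hv : ghm θ ξ T v = 1
        · have h1 : ghm θ ξ (T + 1) v = 2 := by
            rw [ghm_of_ne θ ξ T v (by rw [hv]; exact one_ne hκ), hv, one_add_one_eq_two]
          have h2 : ¬ ghm θ ξ (T + 1 + 1) v = 1 := by
            intro h3
            exact two_ne hκ (h1.symm.trans (ghm_exc hκ θ ξ (T + 1) v h3).1)
          simp [h2, hv, hw]
        · simp only [hw, hv, and_true, and_false, if_false, if_true, add_zero]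
          split_ifs <;> omega
      · simp [hw]
    have e1 : sG θ (T + 1 + 1) ξ v w = sG θ (T + 1) ξ v w +
        (if ghm θ ξ (T + 1 + 1) v = 1 ∧ ghm θ ξ (T + 1) w = 1 then 1 else 0) := by
      unfold sG
      rw [Finset.sum_range_succ _ (T + 1)]
    have e2 : sG θ (T + 1) ξ w v = sG θ T ξ w v +
        (if ghm θ ξ (T + 1) w = 1 ∧ ghm θ ξ T v = 1 then 1 else 0) := by
      unfold sG
      rw [Finset.sum_range_succ _ T]
    have e3 : hG θ (T + 1) ξ w = hG θ T ξ w + (if ghm θ ξ (T + 1) w = 1 then 1 else 0) := by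
      unfold hG
      rw [Finset.sum_range_succ _ T]
    rw [e1, e2, e3]
    omega

lemma sG_mono (θ T : ℕ) (ξ : Vert d → ZMod κ) (v w : Vert d) :
    sG θ T ξ v w ≤ sG θ (T + 1) ξ v w := by
  unfold sG
  rw [Finset.sum_range_succ _ T]
  exact Nat.le_add_right _ _

lemma measurableSet_exc [NeZero κ] (θ t : ℕ) (v : Vert d) :
    MeasurableSet {ξ : Vert d → ZMod κ | ghm θ ξ t v = 1} :=
  measurableSet_eq_fun (measurable_ghm θ t v) measurable_const

lemma measurable_hG [NeZero κ] (θ T : ℕ) (v : Vert d) :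
    Measurable fun ξ : Vert d → ZMod κ => ((hG θ T ξ v : ℕ) : ENNReal) := by
  unfold hG
  push_cast
  refine Finset.measurable_sum _ fun t _ => ?_
  refine Measurable.ite (measurableSet_exc θ (t + 1) v) ?_ ?_ <;> fun_prop

lemma measurable_sG [NeZero κ] (θ T : ℕ) (v w : Vert d) :
    Measurable fun ξ : Vert d → ZMod κ => ((sG θ T ξ v w : ℕ) : ENNReal) := by
  unfold sG
  push_cast
  refine Finset.measurable_sum _ fun t _ => ?_
  refine Measurable.ite ((measurableSet_exc θ (t + 1) v).inter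
    (measurableSet_exc θ t w)) ?_ ?_ <;> fun_prop

lemma hG_comp (θ T : ℕ) (φ : Vert d ≃ Vert d) (hφ : IsAut φ) (ξ : Vert d → ZMod κ)
    (v : Vert d) : hG θ T (ξ ∘ φ) v = hG θ T ξ (φ v) := by
  unfold hG
  simp only [ghm_comp θ φ hφ, Function.comp_apply]

lemma sG_comp (θ T : ℕ) (φ : Vert d ≃ Vert d) (hφ : IsAut φ) (ξ : Vert d → ZMod κ)
    (v w : Vert d) : sG θ T (ξ ∘ φ) v w = sG θ T ξ (φ v) (φ w) := by
  unfold sG
  simp only [ghm_comp θ φ hφ, Function.comp_apply]

lemma lintegral_hG [NeZero κ] (θ T : ℕ) (v : Vert d) :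
    ∫⁻ ξ : Vert d → ZMod κ, ((hG θ T ξ v : ℕ) : ENNReal) ∂(unif d κ) =
      ∫⁻ ξ : Vert d → ZMod κ, ((hG θ T ξ (root d) : ℕ) : ENNReal) ∂(unif d κ) := by
  obtain ⟨φ, h1, h2⟩ := exists_aut v
  rw [← lintegral_comp φ _ (measurable_hG θ T (root d))]
  simp only [hG_comp θ T φ h1, h2]

lemma lintegral_sG [NeZero κ] (θ T : ℕ) (i : Fin (d + 1)) :
    ∫⁻ ξ : Vert d → ZMod κ, ((sG θ T ξ (nb (root d) i) (root d) : ℕ) : ENNReal) ∂(unif d κ) =
      ∫⁻ ξ : Vert d → ZMod κ, ((sG θ T ξ (root d) (nb (root d) i) : ℕ) : ENNReal)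
        ∂(unif d κ) := by
  rw [← lintegral_comp (swap i) _ (measurable_sG θ T (nb (root d) i) (root d))]
  simp only [sG_comp θ T (swap i) (swap_aut i), swap_root, swap_nb_root]

/-- The expected number of excitations up to time `T`. -/
lemma expected_ghm [NeZero κ] (hκ : 3 ≤ κ) (θ : ℕ) (hθ : d + 1 < 2 * θ) (T : ℕ) (v : Vert d) :
    ∫⁻ ξ : Vert d → ZMod κ, ((hG θ T ξ v : ℕ) : ENNReal) ∂(unif d κ) ≤
      ENNReal.ofReal ((d + 1) / (κ * (2 * θ - d - 1))) := by
  rw [lintegral_hG]
  set E := ∫⁻ ξ : Vert d → ZMod κ, ((hG θ T ξ (root d) : ℕ) : ENNReal) ∂(unif d κ) with hE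
  have hfin : E ≤ T := by
    calc E ≤ ∫⁻ ξ : Vert d → ZMod κ, (T : ENNReal) ∂(unif d κ) := by
          refine lintegral_mono fun ξ => ?_
          unfold hG
          rw [Nat.cast_le]
          calc _ ≤ ∑ t ∈ Finset.range T, 1 := Finset.sum_le_sum fun t _ => by split_ifs <;> simp
            _ = T := by simp
      _ = T := by simp
  have hne : E ≠ ⊤ := ne_top_of_le_ne_top (ENNReal.natCast_ne_top T) hfin
  have h1 : (θ : ENNReal) * E ≤ ∑ i : Fin (d + 1),
      ∫⁻ ξ : Vert d → ZMod κ, ((sG θ T ξ (root d) (nb (root d) i) : ℕ) : ENNReal) ∂(unif d κ) := by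
    rw [← lintegral_finsetSum _ fun i _ => measurable_sG θ T _ _, hE,
      ← lintegral_const_mul _ (measurable_hG θ T _)]
    refine lintegral_mono fun ξ => ?_
    have := mul_hG_le hκ θ T ξ (root d)
    rw [← Nat.cast_mul, ← Nat.cast_sum]
    exact Nat.cast_le.mpr this
  have h2 : ∀ i : Fin (d + 1),
      2 * (∫⁻ ξ : Vert d → ZMod κ, ((sG θ T ξ (root d) (nb (root d) i) : ℕ) : ENNReal)
        ∂(unif d κ)) ≤ E + (κ : ENNReal)⁻¹ := by
    intro i
    have h3 : ∫⁻ ξ : Vert d → ZMod κ, ((((sG θ T ξ (root d) (nb (root d) i) : ℕ) : ENNReal) +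
        ((sG θ T ξ (nb (root d) i) (root d) : ℕ) : ENNReal))) ∂(unif d κ) ≤
        ∫⁻ ξ : Vert d → ZMod κ, (((hG θ T ξ (nb (root d) i) : ℕ) : ENNReal) +
          Set.indicator {ξ | ξ (nb (root d) i) = 1} 1 ξ) ∂(unif d κ) := by
      refine lintegral_mono fun ξ => ?_
      have h4 := pair_le_ghm hκ θ T ξ (root d) (nb (root d) i)
      have h5 : sG θ T ξ (root d) (nb (root d) i) + sG θ T ξ (nb (root d) i) (root d) ≤
          hG θ T ξ (nb (root d) i) + (if ξ (nb (root d) i) = 1 then 1 else 0) :=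
        le_trans (Nat.add_le_add_right (sG_mono θ T ξ _ _) _) h4
      simp only [Set.indicator_apply, Set.mem_ofPred_eq, Pi.one_apply]
      exact_mod_cast h5
    rw [lintegral_add_left (measurable_sG θ T _ _), lintegral_sG,
      lintegral_add_left (measurable_hG θ T _), lintegral_hG θ T (nb (root d) i), ← hE,
      lintegral_indicator_one, unif_coord] at h3
    · rw [two_mul]
      exact h3
    · exact measurableSet_eq_fun (measurable_pi_apply _) measurable_const
  have h3 : 2 * θ * E ≤ (d + 1) * (E + (κ : ENNReal)⁻¹) := by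
    calc 2 * θ * E = 2 * (θ * E) := by ring
      _ ≤ 2 * (∑ i : Fin (d + 1), ∫⁻ ξ : Vert d → ZMod κ,
          ((sG θ T ξ (root d) (nb (root d) i) : ℕ) : ENNReal) ∂(unif d κ)) := by gcongr
      _ = ∑ i : Fin (d + 1), (2 * (∫⁻ ξ : Vert d → ZMod κ,
          ((sG θ T ξ (root d) (nb (root d) i) : ℕ) : ENNReal) ∂(unif d κ))) := by
          rw [Finset.mul_sum]
      _ ≤ ∑ i : Fin (d + 1), (E + (κ : ENNReal)⁻¹) := Finset.sum_le_sum fun i _ => h2 i
      _ = (d + 1) * (E + (κ : ENNReal)⁻¹) := by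
          rw [Finset.sum_const, Finset.card_univ, Fintype.card_fin, nsmul_eq_mul]
          push_cast
          ring
  have hκ0 : (κ : ℝ) ≠ 0 := by
    have : (3 : ℝ) ≤ κ := by exact_mod_cast hκ
    positivity
  have h4 : 2 * θ * E.toReal ≤ (d + 1) * (E.toReal + (κ : ℝ)⁻¹) := by
    have hκ1 : (κ : ENNReal) ≠ 0 := by exact_mod_cast (NeZero.ne κ)
    have h5 := ENNReal.toReal_mono (by finiteness) h3
    simp only [ENNReal.toReal_mul, ENNReal.toReal_natCast] at h5
    rw [ENNReal.toReal_add (by finiteness) (by finiteness),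
      ENNReal.toReal_add (by finiteness) (by finiteness)] at h5
    simpa using h5
  rw [← ENNReal.ofReal_toReal hne]
  apply ENNReal.ofReal_le_ofReal
  have h5 : (0 : ℝ) < 2 * θ - d - 1 := by
    have : ((d + 1 : ℕ) : ℝ) < ((2 * θ : ℕ) : ℝ) := by exact_mod_cast hθ
    push_cast at this
    linarith
  have h6 : (0 : ℝ) < κ := by
    have : (3 : ℝ) ≤ κ := by exact_mod_cast hκ
    linarith
  rw [le_div_iff₀ (by positivity)]
  have h7 : (κ : ℝ) * (κ : ℝ)⁻¹ = 1 := mul_inv_cancel₀ hκ0
  nlinarith [mul_le_mul_of_nonneg_left h4 h6.le, h7]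

/-! ### From finite times to all times -/

lemma encard_eq_tsum (p : ℕ → Prop) [DecidablePred p] :
    (({t | p t}.encard : ℕ∞) : ENNReal) = ∑' t, if p t then 1 else 0 := by
  rw [← ENNReal.tsum_set_one, tsum_subtype {t | p t} (fun _ => (1 : ENNReal))]
  refine tsum_congr fun t => ?_
  simp [Set.indicator_apply]

lemma lintegral_encard_le [NeZero κ] (p : ℕ → (Vert d → ZMod κ) → Prop)
    [∀ t ξ, Decidable (p t ξ)] (hp : ∀ t, MeasurableSet {ξ | p t ξ}) (B : ENNReal)
    (hB : ∀ T, ∫⁻ ξ, ((∑ t ∈ Finset.range T, if p t ξ then 1 else 0 : ℕ) : ENNReal)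
      ∂(unif d κ) ≤ B) :
    ∫⁻ ξ, (({t | p t ξ}.encard : ℕ∞) : ENNReal) ∂(unif d κ) ≤ B ∧
      ∑' t, unif d κ {ξ | p t ξ} ≤ B := by
  have hm : ∀ t, Measurable fun ξ : Vert d → ZMod κ => if p t ξ then (1 : ENNReal) else 0 :=
    fun t => Measurable.ite (hp t) measurable_const measurable_const
  have h1 : ∀ t, ∫⁻ ξ, (if p t ξ then (1 : ENNReal) else 0) ∂(unif d κ) =
      unif d κ {ξ | p t ξ} := by
    intro t
    rw [← lintegral_indicator_one (hp t)]
    refine lintegral_congr fun ξ => ?_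
    simp [Set.indicator_apply]
  have h2 : ∑' t, unif d κ {ξ | p t ξ} ≤ B := by
    refine ENNReal.tsum_le_of_sum_range_le fun T => ?_
    refine le_trans (le_of_eq ?_) (hB T)
    push_cast
    rw [lintegral_finsetSum _ fun t _ => hm t]
    exact Finset.sum_congr rfl fun t _ => (h1 t).symm
  refine ⟨?_, h2⟩
  simp only [encard_eq_tsum]
  rw [lintegral_tsum fun t => (hm t).aemeasurable]
  simpa only [h1] using h2

/-- **Large thresholds.** Let `κ ≥ 3` and `2θ > d + 1`. On the `(d+1)`-regular tree with uniform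
product initial law both the cyclic cellular automaton and the Greenberg-Hastings model fixate
almost surely; moreover every vertex changes its colour at most
`(d+1)(κ-1) / (2κ(2θ-d-1))` times on average in the cyclic cellular automaton, and is excited at
most `(d+1) / (κ(2θ-d-1))` times on average in the Greenberg-Hastings model. -/
theorem result (d θ κ : ℕ) [NeZero κ] (hκ : 3 ≤ κ) (hθ : d + 1 < 2 * θ) :
    ((∀ᵐ ξ ∂(unif d κ), ∀ v, ∃ t₀, ∀ t ≥ t₀, cca θ ξ t v = cca θ ξ t₀ v) ∧
      ∀ v, ∫⁻ ξ, (({t : ℕ | cca θ ξ (t + 1) v ≠ cca θ ξ t v}.encard : ℕ∞) : ENNReal)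
        ∂(unif d κ) ≤ ENNReal.ofReal ((d + 1) * (κ - 1) / (2 * κ * (2 * θ - d - 1)))) ∧
    ((∀ᵐ γ ∂(unif d κ), ∀ v, ∃ t₀, ∀ t ≥ t₀, ghm θ γ t v = 0) ∧
      ∀ v, ∫⁻ γ, (({t : ℕ | ghm θ γ (t + 1) v = 1}.encard : ℕ∞) : ENNReal)
        ∂(unif d κ) ≤ ENNReal.ofReal ((d + 1) / (κ * (2 * θ - d - 1)))) := by
  have hC' := fun v => lintegral_encard_le (fun t ξ => cca θ ξ (t + 1) v ≠ cca θ ξ t v)
    (fun t => measurableSet_move θ t v) _ (fun T => expected_cca hκ θ hθ T v)
  have hG' := fun v => lintegral_encard_le (fun t ξ => ghm θ ξ (t + 1) v = 1)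
    (fun t => measurableSet_exc θ (t + 1) v) _ (fun T => expected_ghm hκ θ hθ T v)
  refine ⟨⟨?_, fun v => (hC' v).1⟩, ?_, fun v => (hG' v).1⟩
  · rw [ae_all_iff]
    intro v
    have h := ae_eventually_notMem (ne_top_of_le_ne_top ENNReal.ofReal_ne_top (hC' v).2)
    filter_upwards [h] with ξ hξ
    rw [Filter.eventually_atTop] at hξ
    obtain ⟨t₀, ht₀⟩ := hξ
    refine ⟨t₀, fun t ht => ?_⟩
    induction t, ht using Nat.le_induction with
    | base => rfl
    | succ t ht ih =>
      have := ht₀ t ht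
      simp only [Set.mem_ofPred_eq, ne_eq, not_not] at this
      rw [this, ih]
  · rw [ae_all_iff]
    intro v
    have h := ae_eventually_notMem (ne_top_of_le_ne_top ENNReal.ofReal_ne_top (hG' v).2)
    filter_upwards [h] with ξ hξ
    rw [Filter.eventually_atTop] at hξ
    obtain ⟨t₀, ht₀⟩ := hξ
    have hstay : ∀ t ≥ t₀, ghm θ ξ t v = 0 → ghm θ ξ (t + 1) v = 0 := by
      intro t ht h0
      rcases ghm_zero_or θ ξ t v h0 with h1 | h1
      · exact h1
      · exact absurd h1 (ht₀ t ht)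
    have hex : ∃ t₁ ≥ t₀, ghm θ ξ t₁ v = 0 := by
      by_contra hcon
      push Not at hcon
      have h1 : ∀ n : ℕ, ghm θ ξ (t₀ + n) v = ghm θ ξ t₀ v + n := by
        intro n
        induction n with
        | zero => simp
        | succ n ih =>
          rw [← add_assoc, ghm_of_ne θ ξ (t₀ + n) v (hcon _ (Nat.le_add_right _ _)), ih]
          push_cast
          ring
      have h2 := h1 (-(ghm θ ξ t₀ v)).val
      rw [ZMod.natCast_zmod_val, add_neg_cancel] at h2
      exact hcon _ (Nat.le_add_right _ _) h2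
    obtain ⟨t₁, ht₁, h1⟩ := hex
    refine ⟨t₁, fun t ht => ?_⟩
    induction t, ht using Nat.le_induction with
    | base => exact h1
    | succ t ht ih => exact hstay t (ht₁.trans ht) ih

end Pool.Agent.Results.MP_a6367b_pr.LargeThreshold
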